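import Mathlib

set_option autoImplicit false

open Polynomial Metric Topology

namespace Pool.Agent.H218.WO

/-- Taylor polynomials. -/
theorem taylor_approx (f : ℂ → ℂ) (c : ℂ) (r : ℝ) (hr : 0 ≤ r) (U : Set ℂ) (hU : IsOpen U)
    (hsub : closedBall c r ⊆ U) (hf : DifferentiableOn ℂ f U) (η : ℝ) (hη : 0 < η) :
    ∃ P : ℂ[X], ∀ z ∈ closedBall c r, ‖P.eval z - f z‖ < η := by
  obtain ⟨δ, hδ, hδU⟩ := (isCompact_closedBall c r).exists_cthickening_subset_open hU hsub
  have hsub2 : closedBall c (r + δ) ⊆ U := by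
    refine subset_trans ?_ hδU
    rw [cthickening_closedBall hδ.le hr, add_comm]
  obtain ⟨R, hR⟩ : ∃ R : NNReal, (R : ℝ) = r + δ := ⟨⟨r + δ, by linarith⟩, rfl⟩
  obtain ⟨r', hr'⟩ : ∃ r' : NNReal, (r' : ℝ) = r + δ / 2 := ⟨⟨r + δ / 2, by linarith⟩, rfl⟩
  have hH : DifferentiableOn ℂ f (closedBall c R) := by
    rw [hR]
    exact hf.mono hsub2
  have h1 := DifferentiableOn.hasFPowerSeriesOnBall hH (by
      rw [← NNReal.coe_pos, hR]
      linarith)
  have h2 := h1.tendstoUniformlyOn (r' := r') (by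
    rw [ENNReal.coe_lt_coe, ← NNReal.coe_lt_coe, hR, hr']
    linarith)
  rw [Metric.tendstoUniformlyOn_iff] at h2
  obtain ⟨n, hn⟩ := (h2 η hη).exists
  refine ⟨∑ k ∈ Finset.range n, Polynomial.C ((cauchyPowerSeries f c R).coeff k) *
    (Polynomial.X - Polynomial.C c) ^ k, fun s hs => ?_⟩
  have h3 := hn (s - c) (by
    rw [mem_ball_zero_iff, hr']
    rw [mem_closedBall_iff_norm] at hs
    linarith)
  rw [dist_eq_norm] at h3
  have h4 : c + (s - c) = s := by ring
  rw [h4] at h3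
  have h5 : (cauchyPowerSeries f c R).partialSum n (s - c)
      = Polynomial.eval s (∑ k ∈ Finset.range n,
        Polynomial.C ((cauchyPowerSeries f c R).coeff k) *
        (Polynomial.X - Polynomial.C c) ^ k) := by
    rw [Polynomial.eval_finsetSum]
    unfold FormalMultilinearSeries.partialSum
    apply Finset.sum_congr rfl
    intro k _
    rw [FormalMultilinearSeries.apply_eq_pow_smul_coeff]
    simp only [Polynomial.eval_mul, Polynomial.eval_C, Polynomial.eval_pow, Polynomial.eval_sub,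
      Polynomial.eval_X, smul_eq_mul]
    rw [mul_comm]
  rw [h5, norm_sub_rev] at h3
  exact h3

/-- Points outside two disjoint discs lie in unbounded components of the complement. -/
theorem unbounded_component (c₁ c₂ : ℂ) (r₁ r₂ : ℝ) (h₁ : 0 ≤ r₁) (s : ℂ)
    (hs : s ∉ closedBall c₁ r₁ ∪ closedBall c₂ r₂) :
    ¬ Bornology.IsBounded (connectedComponentIn (closedBall c₁ r₁ ∪ closedBall c₂ r₂)ᶜ s) := by
  have hs1 : r₁ < ‖s - c₁‖ := by
    by_contra h
    exact hs (Or.inl (by rw [mem_closedBall_iff_norm]; linarith))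
  have hs2 : r₂ < ‖s - c₂‖ := by
    by_contra h
    exact hs (Or.inr (by rw [mem_closedBall_iff_norm]; linarith))
  -- a direction
  obtain ⟨v, hv0, hv1, hv2⟩ : ∃ v : ℂ, v ≠ 0 ∧ 0 ≤ (v * (starRingEnd ℂ) (s - c₁)).re ∧
      0 ≤ (v * (starRingEnd ℂ) (s - c₂)).re := by
    have hne : s - c₁ ≠ 0 := by
      intro h
      rw [h, norm_zero] at hs1
      linarith
    set w : ℂ := Complex.I * (s - c₁) with hw
    have hw0 : w ≠ 0 := mul_ne_zero Complex.I_ne_zero hne
    have hw1 : (w * (starRingEnd ℂ) (s - c₁)).re = 0 := by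
      rw [hw, mul_assoc, Complex.mul_conj]
      simp
    rcases le_total 0 (w * (starRingEnd ℂ) (s - c₂)).re with h | h
    · exact ⟨w, hw0, hw1.ge, h⟩
    · refine ⟨-w, neg_ne_zero.2 hw0, ?_, ?_⟩
      · rw [neg_mul, Complex.neg_re, hw1]
        simp
      · rw [neg_mul, Complex.neg_re]
        linarith
  have hnorm : ∀ (c : ℂ) (t : ℝ), 0 ≤ t → 0 ≤ (v * (starRingEnd ℂ) (s - c)).re →
      ‖s - c‖ ≤ ‖s + t * v - c‖ := by
    intro c t ht h
    have h1 : ‖s - c‖ ^ 2 ≤ ‖s + t * v - c‖ ^ 2 := by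
      rw [← Complex.normSq_eq_norm_sq, ← Complex.normSq_eq_norm_sq]
      have : s + t * v - c = t * v + (s - c) := by ring
      rw [this, Complex.normSq_add]
      have h2 : (↑t * v * (starRingEnd ℂ) (s - c)).re = t * (v * (starRingEnd ℂ) (s - c)).re := by
        rw [mul_assoc, Complex.re_ofReal_mul]
      rw [h2]
      have h3 := Complex.normSq_nonneg (↑t * v)
      have h4 : 0 ≤ t * (v * (starRingEnd ℂ) (s - c)).re := mul_nonneg ht h
      linarith
    exact le_of_sq_le_sq h1 (norm_nonneg _) |> fun h => h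
  set V : Set ℂ := (fun t : ℝ => s + t * v) '' Set.Ici 0 with hV
  have hVc : IsPreconnected V := by
    apply isPreconnected_Ici.image
    fun_prop
  have hsV : s ∈ V := ⟨0, by simp, by simp⟩
  have hVK : V ⊆ (closedBall c₁ r₁ ∪ closedBall c₂ r₂)ᶜ := by
    rintro _ ⟨t, ht, rfl⟩ hmem
    rcases hmem with h | h
    · rw [mem_closedBall_iff_norm] at h
      have := hnorm c₁ t ht hv1
      linarith
    · rw [mem_closedBall_iff_norm] at h
      have := hnorm c₂ t ht hv2
      linarith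
  intro hb
  have hVb : Bornology.IsBounded V := hb.subset (hVc.subset_connectedComponentIn hsV hVK)
  rw [isBounded_iff_forall_norm_le] at hVb
  obtain ⟨C, hC⟩ := hVb
  have hvp : 0 < ‖v‖ := norm_pos_iff.2 hv0
  have hC0 : 0 ≤ C := (norm_nonneg s).trans (hC s hsV)
  set t : ℝ := (C + ‖s‖ + 1) / ‖v‖ with ht
  have ht0 : 0 ≤ t := by positivity
  have h1 := hC (s + t * v) ⟨t, ht0, rfl⟩
  have h2 : ‖(t : ℂ) * v‖ = C + ‖s‖ + 1 := by
    rw [norm_mul, Complex.norm_real, Real.norm_of_nonneg ht0, ht]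
    field_simp
  have h3 : ‖(t : ℂ) * v‖ ≤ ‖s + t * v‖ + ‖s‖ := by
    have := norm_sub_le (s + t * v) s
    simpa using this
  linarith

/-- If every point outside the compact set `K` lies in an unbounded component of the complement,
and the polynomial `q` has no zero on `K`, then `1 / q` is a uniform limit of polynomials. -/
theorem inv_approx (K : Set ℂ) (hK : IsCompact K) (hne : K.Nonempty)
    (hs : ∀ s ∉ K, ¬ Bornology.IsBounded (connectedComponentIn Kᶜ s))
    (q : ℂ[X]) (hq : ∀ z ∈ K, q.eval z ≠ 0) (ε : ℝ) (hε : 0 < ε) :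
    ∃ p : ℂ[X], ∀ z ∈ K, ‖p.eval z - (q.eval z)⁻¹‖ < ε := by
  have : CompactSpace K := isCompact_iff_compactSpace.mp hK
  have : Nonempty K := hne.to_subtype
  set S : Subalgebra ℂ C(K, ℂ) := (polynomialFunctions K).topologicalClosure with hS
  have hSc : IsClosed (S : Set C(K, ℂ)) := (polynomialFunctions K).isClosed_topologicalClosure
  have : CompleteSpace S := hSc.completeSpace_coe
  have : Nontrivial S := inferInstance
  have hx : (X : ℂ[X]).toContinuousMapOn K ∈ S := by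
    apply (polynomialFunctions K).le_topologicalClosure
    exact ⟨X, by simp⟩
  set x : S := ⟨(X : ℂ[X]).toContinuousMapOn K, hx⟩ with hxdef
  have hspec : spectrum ℂ (x : C(K, ℂ)) = K := by
    rw [ContinuousMap.spectrum_eq_range]
    ext z
    constructor
    · rintro ⟨w, rfl⟩
      simp [hxdef, Polynomial.toContinuousMapOn]
    · intro hz
      exact ⟨⟨z, hz⟩, by simp [hxdef, Polynomial.toContinuousMapOn]⟩
  have hsp : spectrum ℂ x ⊆ K := by
    intro s hmem
    by_contra hsK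
    have := Subalgebra.spectrum_isBounded_connectedComponentIn S x hmem
    rw [hspec] at this
    exact hs s hsK this
  have hns : (0:ℂ) ∉ spectrum ℂ (aeval x q) := by
    rw [spectrum.map_polynomial_aeval]
    rintro ⟨z, hz, hz0⟩
    exact hq z (hsp hz) hz0
  rw [spectrum.zero_notMem_iff] at hns
  obtain ⟨u, hu⟩ := hns
  have hy : ((u⁻¹ : Sˣ) : S).1 ∈ closure ((polynomialFunctions K : Subalgebra ℂ C(K, ℂ)) : Set C(K, ℂ)) := by
    have h0 : (S : Set C(K, ℂ)) = closure ((polynomialFunctions K : Subalgebra ℂ C(K, ℂ)) :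
        Set C(K, ℂ)) := Subalgebra.topologicalClosure_coe _
    rw [← h0]
    exact ((u⁻¹ : Sˣ) : S).2
  rw [Metric.mem_closure_iff] at hy
  obtain ⟨b, hb, hdist⟩ := hy ε hε
  obtain ⟨p, -, rfl⟩ := hb
  refine ⟨p, fun z hz => ?_⟩
  have h1 : ((u : S) * ((u⁻¹ : Sˣ) : S)) = 1 := Units.mul_inv u
  have h2 : (((u : S) * ((u⁻¹ : Sˣ) : S) : S) : C(K, ℂ)) ⟨z, hz⟩ = 1 := by
    rw [h1]; simp
  have h3 : ((u : S) : C(K, ℂ)) ⟨z, hz⟩ = q.eval z := by
    rw [hu]
    have e1 : ((aeval x q : S) : C(K, ℂ)) = aeval (x : C(K, ℂ)) q := by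
      have := Polynomial.aeval_algHom_apply S.val x q
      exact this.symm
    rw [e1]
    have e2 := Polynomial.aeval_algHom_apply (ContinuousMap.evalAlgHom ℂ ℂ (⟨z, hz⟩ : K)) (x : C(K, ℂ)) q
    have e3 : ContinuousMap.evalAlgHom ℂ ℂ (⟨z, hz⟩ : K) (x : C(K, ℂ)) = z := by
      simp [hxdef, Polynomial.toContinuousMapOn]
    rw [e3] at e2
    rw [← Polynomial.coe_aeval_eq_eval, e2]
    rfl
  have h4 : (q.eval z) * (((u⁻¹ : Sˣ) : S) : C(K, ℂ)) ⟨z, hz⟩ = 1 := by
    rw [← h3]; exact h2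
  have h5 : (((u⁻¹ : Sˣ) : S) : C(K, ℂ)) ⟨z, hz⟩ = (q.eval z)⁻¹ :=
    eq_inv_of_mul_eq_one_right h4
  have h6 := ContinuousMap.dist_lt_iff hε |>.mp hdist ⟨z, hz⟩
  rw [dist_eq_norm] at h6
  rw [h5] at h6
  rw [norm_sub_rev]
  simpa [Polynomial.toContinuousMapOnAlgHom, Polynomial.toContinuousMapOn] using h6

end Pool.Agent.H218.WO
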