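import Mathlib
import Pool.Agent.H218.WO.Runge

set_option autoImplicit false

open Polynomial Metric Topology Filter

namespace Pool.Agent.H218.WO

/-- A polynomial which is close to `1` on the first disc and close to `0` on the second. -/
theorem exists_cutoff (c₁ c₂ : ℂ) (r₁ r₂ : ℝ) (h₁ : 0 ≤ r₁) (h₂ : 0 ≤ r₂)
    (hd : r₁ + r₂ < ‖c₁ - c₂‖) (ε : ℝ) (hε : 0 < ε) :
    ∃ χ : ℂ[X], (∀ z ∈ closedBall c₁ r₁, ‖χ.eval z - 1‖ < ε) ∧
      ∀ z ∈ closedBall c₂ r₂, ‖χ.eval z‖ < ε := by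
  set D : ℝ := ‖c₁ - c₂‖ - r₂ with hD
  have hD1 : r₁ < D := by linarith
  obtain ⟨s, hs1, hs2⟩ := exists_between hD1
  have hs0 : 0 < s := by linarith
  set ρ₁ : ℝ := r₁ / s with hρ₁
  set ρ₂ : ℝ := D / s with hρ₂
  have hρ₁0 : 0 ≤ ρ₁ := by positivity
  have hρ₁1 : ρ₁ < 1 := by rw [hρ₁, div_lt_one hs0]; exact hs1
  have hρ₂1 : 1 < ρ₂ := by rw [hρ₂, one_lt_div hs0]; exact hs2
  have t1 : Tendsto (fun n : ℕ => ρ₁ ^ n) atTop (𝓝 0) := tendsto_pow_atTop_nhds_zero_of_lt_one hρ₁0 hρ₁1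
  have t2 : Tendsto (fun n : ℕ => ρ₂ ^ n) atTop atTop := tendsto_pow_atTop_atTop_of_one_lt hρ₂1
  obtain ⟨n, hn1, hn2⟩ := ((t1.eventually (gt_mem_nhds (show (0:ℝ) < min (1/2) (ε/4) by positivity))).and
    (t2.eventually (eventually_gt_atTop (1 + 2 / ε)))).exists
  have hn1a : ρ₁ ^ n < 1 / 2 := lt_of_lt_of_le hn1 (min_le_left _ _)
  have hn1b : ρ₁ ^ n < ε / 4 := lt_of_lt_of_le hn1 (min_le_right _ _)
  set q : ℂ[X] := 1 + (C ((s : ℂ)⁻¹) * (X - C c₁)) ^ n with hq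
  have hqe : ∀ z, q.eval z = 1 + ((s : ℂ)⁻¹ * (z - c₁)) ^ n := by
    intro z
    simp [hq]
  have hnorm : ∀ z : ℂ, ‖((s : ℂ)⁻¹ * (z - c₁)) ^ n‖ = (‖z - c₁‖ / s) ^ n := by
    intro z
    rw [norm_pow, norm_mul, norm_inv, Complex.norm_real, Real.norm_of_nonneg hs0.le]
    congr 1
    rw [div_eq_mul_inv, mul_comm]
  have b1 : ∀ z ∈ closedBall c₁ r₁, ‖((s : ℂ)⁻¹ * (z - c₁)) ^ n‖ ≤ ρ₁ ^ n := by
    intro z hz
    rw [hnorm, hρ₁]
    rw [mem_closedBall_iff_norm] at hz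
    gcongr
  have b2 : ∀ z ∈ closedBall c₂ r₂, ρ₂ ^ n ≤ ‖((s : ℂ)⁻¹ * (z - c₁)) ^ n‖ := by
    intro z hz
    rw [hnorm, hρ₂]
    rw [mem_closedBall_iff_norm] at hz
    have : D ≤ ‖z - c₁‖ := by
      have h3 : ‖c₁ - c₂‖ ≤ ‖z - c₂‖ + ‖z - c₁‖ := by
        have := norm_sub_le (z - c₂) (z - c₁)
        have e : (z - c₂) - (z - c₁) = c₁ - c₂ := by ring
        rw [e] at this
        exact this
      rw [hD]
      linarith
    have hD0 : 0 < D := by linarith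
    gcongr
  -- nonvanishing
  have q1 : ∀ z ∈ closedBall c₁ r₁, 1 / 2 ≤ ‖q.eval z‖ := by
    intro z hz
    rw [hqe]
    have h3 := norm_sub_le (1 + ((s : ℂ)⁻¹ * (z - c₁)) ^ n) (((s : ℂ)⁻¹ * (z - c₁)) ^ n)
    have h4 := b1 z hz
    rw [add_sub_cancel_right, norm_one] at h3
    linarith
  have q2 : ∀ z ∈ closedBall c₂ r₂, 2 / ε < ‖q.eval z‖ := by
    intro z hz
    rw [hqe]
    have h3 := norm_sub_le (1 + ((s : ℂ)⁻¹ * (z - c₁)) ^ n) 1
    have h4 := b2 z hz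
    rw [add_sub_cancel_left, norm_one] at h3
    linarith
  set K : Set ℂ := closedBall c₁ r₁ ∪ closedBall c₂ r₂ with hK
  have hKc : IsCompact K := (isCompact_closedBall _ _).union (isCompact_closedBall _ _)
  have hKn : K.Nonempty := ⟨c₁, Or.inl (mem_closedBall_self h₁)⟩
  obtain ⟨p, hp⟩ := inv_approx K hKc hKn (fun t ht => unbounded_component c₁ c₂ r₁ r₂ h₁ t ht) q (by
    rintro z (hz | hz)
    · have := q1 z hz
      intro h0
      rw [h0, norm_zero] at this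
      linarith
    · have := q2 z hz
      intro h0
      rw [h0, norm_zero] at this
      have : 0 < 2 / ε := by positivity
      linarith) (ε / 2) (by positivity)
  refine ⟨p, fun z hz => ?_, fun z hz => ?_⟩
  · have h3 := hp z (Or.inl hz)
    have h4 := q1 z hz
    have hq0 : q.eval z ≠ 0 := by
      intro h0
      rw [h0, norm_zero] at h4
      linarith
    have h5 : ‖(q.eval z)⁻¹ - 1‖ ≤ ε / 2 := by
      have e : (q.eval z)⁻¹ - 1 = -(((s : ℂ)⁻¹ * (z - c₁)) ^ n) * (q.eval z)⁻¹ := by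
        field_simp
        rw [hqe]
        ring
      rw [e, norm_mul, norm_neg, norm_inv]
      have h6 : ‖q.eval z‖⁻¹ ≤ 2 := by
        rw [inv_le_comm₀ (by linarith) (by norm_num)]
        linarith
      calc ‖((s : ℂ)⁻¹ * (z - c₁)) ^ n‖ * ‖q.eval z‖⁻¹ ≤ (ε / 4) * 2 :=
            mul_le_mul ((b1 z hz).trans hn1b.le) h6 (by positivity) (by positivity)
        _ = ε / 2 := by ring
    have e : p.eval z - 1 = (p.eval z - (q.eval z)⁻¹) + ((q.eval z)⁻¹ - 1) := by ring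
    rw [e]
    refine (norm_add_le _ _).trans_lt ?_
    linarith
  · have h3 := hp z (Or.inr hz)
    have h4 := q2 z hz
    have h5 : ‖(q.eval z)⁻¹‖ ≤ ε / 2 := by
      rw [norm_inv, inv_le_comm₀ (lt_trans (by positivity) h4) (by positivity)]
      have : (ε / 2)⁻¹ = 2 / ε := by field_simp
      rw [this]
      exact h4.le
    have e : p.eval z = (p.eval z - (q.eval z)⁻¹) + (q.eval z)⁻¹ := by ring
    rw [e]
    refine (norm_add_le _ _).trans_lt ?_
    linarith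

theorem lt_of_disjoint (c₁ c₂ : ℂ) (r₁ r₂ : ℝ) (h₁ : 0 ≤ r₁) (h₂ : 0 ≤ r₂)
    (hd : Disjoint (closedBall c₁ r₁) (closedBall c₂ r₂)) : r₁ + r₂ < ‖c₁ - c₂‖ := by
  have := (disjoint_closedBall_closedBall_iff h₁ h₂).1 hd
  rwa [dist_eq_norm] at this

/-- Polynomial approximation on two disjoint discs. -/
theorem approx_two (c₁ c₂ : ℂ) (r₁ r₂ : ℝ) (h₁ : 0 ≤ r₁) (h₂ : 0 ≤ r₂)
    (hd : Disjoint (closedBall c₁ r₁) (closedBall c₂ r₂)) (f : ℂ → ℂ) (U : Set ℂ)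
    (hU : IsOpen U) (hsub : closedBall c₁ r₁ ∪ closedBall c₂ r₂ ⊆ U)
    (hf : DifferentiableOn ℂ f U) (ε : ℝ) (hε : 0 < ε) :
    ∃ p : ℂ[X], ∀ z ∈ closedBall c₁ r₁ ∪ closedBall c₂ r₂, ‖p.eval z - f z‖ < ε := by
  have hd' := lt_of_disjoint c₁ c₂ r₁ r₂ h₁ h₂ hd
  obtain ⟨P₁, hP₁⟩ := taylor_approx f c₁ r₁ h₁ U hU (fun z hz => hsub (Or.inl hz)) hf (ε / 2) (by positivity)
  obtain ⟨P₂, hP₂⟩ := taylor_approx f c₂ r₂ h₂ U hU (fun z hz => hsub (Or.inr hz)) hf (ε / 2) (by positivity)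
  obtain ⟨M₁, hM₁⟩ := (isCompact_closedBall c₁ r₁).exists_bound_of_continuousOn
    (f := fun z => P₁.eval z - P₂.eval z) (by fun_prop)
  obtain ⟨M₂, hM₂⟩ := (isCompact_closedBall c₂ r₂).exists_bound_of_continuousOn
    (f := fun z => P₁.eval z - P₂.eval z) (by fun_prop)
  set M : ℝ := max (max M₁ M₂) 1 with hM
  have hM1 : 1 ≤ M := le_max_right _ _
  have hMa : M₁ ≤ M := (le_max_left _ _).trans (le_max_left _ _)
  have hMb : M₂ ≤ M := (le_max_right _ _).trans (le_max_left _ _)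
  obtain ⟨χ, hχ1, hχ2⟩ := exists_cutoff c₁ c₂ r₁ r₂ h₁ h₂ hd' (ε / (2 * M)) (by positivity)
  have hMe : ε / (2 * M) * M = ε / 2 := by field_simp
  refine ⟨χ * (P₁ - P₂) + P₂, ?_⟩
  rintro z (hz | hz)
  · have e : (χ * (P₁ - P₂) + P₂).eval z - f z
        = (χ.eval z - 1) * (P₁.eval z - P₂.eval z) + (P₁.eval z - f z) := by
      simp only [eval_add, eval_mul, eval_sub]
      ring
    rw [e]
    refine (norm_add_le _ _).trans_lt ?_
    rw [norm_mul]
    have h3 : ‖χ.eval z - 1‖ * ‖P₁.eval z - P₂.eval z‖ ≤ ε / (2 * M) * M :=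
      mul_le_mul (hχ1 z hz).le ((hM₁ z hz).trans hMa) (norm_nonneg _) (by positivity)
    rw [hMe] at h3
    linarith [hP₁ z hz]
  · have e : (χ * (P₁ - P₂) + P₂).eval z - f z
        = (χ.eval z) * (P₁.eval z - P₂.eval z) + (P₂.eval z - f z) := by
      simp only [eval_add, eval_mul, eval_sub]
      ring
    rw [e]
    refine (norm_add_le _ _).trans_lt ?_
    rw [norm_mul]
    have h3 : ‖χ.eval z‖ * ‖P₁.eval z - P₂.eval z‖ ≤ ε / (2 * M) * M :=
      mul_le_mul (hχ2 z hz).le ((hM₂ z hz).trans hMb) (norm_nonneg _) (by positivity)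
    rw [hMe] at h3
    linarith [hP₂ z hz]

/-- Pairs of coprime polynomials, the first one not constant: they give maps from the line to the
plane which avoid the origin. -/
def Good (g : ℂ[X] × ℂ[X]) : Prop := IsCoprime g.1 g.2 ∧ 0 < g.1.natDegree

/-- The map given by a pair of polynomials. -/
noncomputable def ev (g : ℂ[X] × ℂ[X]) (t : ℂ) : Fin 2 → ℂ := ![g.1.eval t, g.2.eval t]

theorem continuous_ev (g : ℂ[X] × ℂ[X]) : Continuous (ev g) := by
  unfold ev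
  refine continuous_pi fun i => ?_
  fin_cases i
  · exact g.1.continuous
  · exact g.2.continuous

/-- Pairs of polynomials can be perturbed to be good. -/
theorem exists_good_near (a b : ℂ[X]) (K : Set ℂ) (hK : IsCompact K) (ε : ℝ) (hε : 0 < ε) :
    ∃ g : ℂ[X] × ℂ[X], Good g ∧ ∀ z ∈ K, ‖g.1.eval z - a.eval z‖ < ε ∧
      ‖g.2.eval z - b.eval z‖ < ε := by
  obtain ⟨M, hM⟩ := hK.exists_bound_of_continuousOn (f := fun z : ℂ => z ^ (a.natDegree + 1))
    (by fun_prop)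
  -- make the first polynomial nonconstant
  set δ : ℝ := ε / (2 * (max M 1)) with hδ
  have hmax : (1:ℝ) ≤ max M 1 := le_max_right _ _
  have hδ0 : 0 < δ := by positivity
  set a' : ℂ[X] := a + C (δ : ℂ) * X ^ (a.natDegree + 1) with ha'
  have hdeg : a'.natDegree = a.natDegree + 1 := by
    rw [ha', natDegree_add_eq_right_of_natDegree_lt]
    · exact natDegree_C_mul_X_pow _ _ (by exact_mod_cast hδ0.ne')
    · rw [natDegree_C_mul_X_pow _ _ (by exact_mod_cast hδ0.ne')]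
      omega
  have ha'0 : a' ≠ 0 := by
    intro h
    rw [h] at hdeg
    simp at hdeg
  -- shift the second
  have hex : ∃ c : ℂ, ‖c‖ < ε ∧ c ∉ (a'.roots.toFinset.image (fun t => -b.eval t) : Finset ℂ) := by
    have hinf : (ball (0:ℂ) ε).Infinite := by
      apply infinite_of_mem_nhds (0:ℂ)
      exact ball_mem_nhds 0 hε
    obtain ⟨c, hc1, hc2⟩ := hinf.exists_notMem_finset (a'.roots.toFinset.image (fun t => -b.eval t))
    exact ⟨c, by simpa using hc1, hc2⟩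
  obtain ⟨c, hc1, hc2⟩ := hex
  refine ⟨(a', b + C c), ⟨?_, ?_⟩, fun z hz => ⟨?_, ?_⟩⟩
  · rw [Polynomial.isCoprime_iff_aeval_ne_zero_of_isAlgClosed ℂ ℂ]
    intro t
    by_contra hcon
    push Not at hcon
    obtain ⟨h3, h4⟩ := hcon
    rw [Polynomial.coe_aeval_eq_eval] at h3 h4
    apply hc2
    rw [Finset.mem_image]
    refine ⟨t, ?_, ?_⟩
    · rw [Multiset.mem_toFinset, mem_roots ha'0]
      exact h3
    · rw [eval_add, eval_C] at h4
      linear_combination -h4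
  · change 0 < a'.natDegree
    omega
  · change ‖a'.eval z - a.eval z‖ < ε
    have e : a'.eval z - a.eval z = δ * z ^ (a.natDegree + 1) := by
      simp [ha']
    rw [e, norm_mul, Complex.norm_real, Real.norm_of_nonneg hδ0.le]
    have h3 : ‖z ^ (a.natDegree + 1)‖ ≤ max M 1 := (hM z hz).trans (le_max_left _ _)
    calc δ * ‖z ^ (a.natDegree + 1)‖ ≤ δ * max M 1 := by gcongr
      _ = ε / 2 := by rw [hδ]; field_simp
      _ < ε := by linarith
  · change ‖(b + C c).eval z - b.eval z‖ < ε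
    simpa using hc1

end Pool.Agent.H218.WO
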