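import Mathlib
import Pool.Agent.H218.WO.TwoDiscs

set_option autoImplicit false

open Polynomial Metric Topology Filter

namespace Pool.Agent.H218.WO

/-- The polynomial pair as a continuous map on a disc. -/
noncomputable def restr (N : ℕ) (g : {g : ℂ[X] × ℂ[X] // Good g}) : C(closedBall (0:ℂ) N, ℂ × ℂ) :=
  ⟨fun z => (g.1.1.eval (z : ℂ), g.1.2.eval (z : ℂ)), by fun_prop⟩

theorem good_X : Good ((X : ℂ[X]), (1 : ℂ[X])) := by
  refine ⟨isCoprime_one_right, ?_⟩
  simp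

/-- A countable family of good pairs which is dense among all good pairs. -/
theorem exists_family : ∃ g : ℕ → ℂ[X] × ℂ[X], (∀ n, Good (g n)) ∧
    ∀ h : ℂ[X] × ℂ[X], Good h → ∀ (N : ℕ) (ε : ℝ), 0 < ε →
      ∃ n, ∀ z ∈ closedBall (0:ℂ) N, ‖(g n).1.eval z - h.1.eval z‖ < ε ∧
        ‖(g n).2.eval z - h.2.eval z‖ < ε := by
  have key : ∀ N : ℕ, ∃ u : ℕ → {g : ℂ[X] × ℂ[X] // Good g},
      ∀ h : {g : ℂ[X] × ℂ[X] // Good g}, ∀ ε : ℝ, 0 < ε →
        ∃ n, dist (restr N (u n)) (restr N h) < ε := by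
    intro N
    letI : TopologicalSpace {g : ℂ[X] × ℂ[X] // Good g} :=
      TopologicalSpace.induced (restr N) inferInstance
    have hcont : Continuous (restr N) := continuous_induced_dom
    haveI : SecondCountableTopology {g : ℂ[X] × ℂ[X] // Good g} :=
      TopologicalSpace.secondCountableTopology_induced _ _ _
    haveI : Nonempty {g : ℂ[X] × ℂ[X] // Good g} := ⟨⟨_, good_X⟩⟩
    obtain ⟨u, hu⟩ := TopologicalSpace.exists_dense_seq {g : ℂ[X] × ℂ[X] // Good g}
    refine ⟨u, fun h ε hε => ?_⟩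
    have ho : IsOpen {g | dist (restr N g) (restr N h) < ε} :=
      isOpen_lt (hcont.dist continuous_const) continuous_const
    obtain ⟨n, hn⟩ := hu.exists_mem_open ho ⟨h, by simpa using hε⟩
    exact ⟨n, hn⟩
  choose u hu using key
  refine ⟨fun m => (u (Nat.unpair m).1 (Nat.unpair m).2).1,
    fun m => (u (Nat.unpair m).1 (Nat.unpair m).2).2, fun h hh N ε hε => ?_⟩
  obtain ⟨n, hn⟩ := hu N ⟨h, hh⟩ ε hε
  refine ⟨Nat.pair N n, fun z hz => ?_⟩
  simp only [Nat.unpair_pair]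
  have h1 := (ContinuousMap.dist_lt_iff hε).1 hn ⟨z, hz⟩
  rw [Prod.dist_eq, max_lt_iff, dist_eq_norm, dist_eq_norm] at h1
  exact h1

end Pool.Agent.H218.WO
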