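import Mathlib

set_option autoImplicit false

open Metric Topology Filter Real Set

namespace Pool.Agent.H218.WO

theorem finsum_part_nonneg (f : ℂ → ℂ) (hf : AnalyticOnNhd ℂ f univ) (R : ℝ) (hR : 1 ≤ R) :
    0 ≤ ∑ᶠ u, MeromorphicOn.divisor f (closedBall 0 |R|) u * log (R * ‖(0:ℂ) - u‖⁻¹) := by
  refine finsum_nonneg fun u => ?_
  have hnn : 0 ≤ MeromorphicOn.divisor f (closedBall 0 |R|) :=
    MeromorphicOn.AnalyticOnNhd.divisor_nonneg (hf.mono (subset_univ _))
  by_cases hu : u ∈ closedBall (0:ℂ) |R|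
  · refine mul_nonneg ?_ ?_
    · exact_mod_cast hnn u
    · rw [zero_sub, norm_neg]
      rw [mem_closedBall_zero_iff, abs_of_pos (by linarith)] at hu
      rcases eq_or_ne u 0 with rfl | hu0
      · simp
      · apply log_nonneg
        have : 0 < ‖u‖ := norm_pos_iff.2 hu0
        rw [← div_eq_mul_inv, one_le_div this]
        exact hu
  · have : MeromorphicOn.divisor f (closedBall 0 |R|) u = 0 :=
      Function.locallyFinsuppWithin.apply_eq_zero_of_notMem _ hu
    rw [this]
    simp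

/-- Jensen's inequality when the function does not vanish at the origin. -/
theorem jensen_one (f : ℂ → ℂ) (hf : AnalyticOnNhd ℂ f univ) (h0 : f 0 ≠ 0) (R : ℝ) (hR : 1 ≤ R) :
    log ‖f 0‖ ≤ circleAverage (fun z => log ‖f z‖) 0 R := by
  have h1 := MeromorphicOn.circleAverage_log_norm (c := 0) (R := R) (f := f) (by linarith)
    (hf.mono (subset_univ _)).meromorphicOn
  rw [h1, (hf 0 (mem_univ _)).meromorphicTrailingCoeffAt_of_ne_zero h0]
  have h2 := finsum_part_nonneg f hf R hR
  have h3 : 0 ≤ MeromorphicOn.divisor f (closedBall 0 |R|) 0 :=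
    MeromorphicOn.AnalyticOnNhd.divisor_nonneg (hf.mono (subset_univ _)) 0
  have h4 : (0:ℝ) ≤ MeromorphicOn.divisor f (closedBall 0 |R|) 0 := by exact_mod_cast h3
  have h5 := mul_nonneg h4 (log_nonneg hR)
  linarith

/-- Jensen's inequality when the function vanishes at the origin. -/
theorem jensen_two (f : ℂ → ℂ) (hf : AnalyticOnNhd ℂ f univ) (h0 : f 0 = 0) (hne : ∃ z, f z ≠ 0) :
    ∃ c : ℝ, ∀ R : ℝ, 1 ≤ R → log R + c ≤ circleAverage (fun z => log ‖f z‖) 0 R := by
  refine ⟨log ‖meromorphicTrailingCoeffAt f 0‖, fun R hR => ?_⟩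
  have h1 := MeromorphicOn.circleAverage_log_norm (c := 0) (R := R) (f := f) (by linarith)
    (hf.mono (subset_univ _)).meromorphicOn
  rw [h1]
  have h2 := finsum_part_nonneg f hf R hR
  have hmem : (0:ℂ) ∈ closedBall (0:ℂ) |R| := mem_closedBall_self (abs_nonneg _)
  have htop : analyticOrderAt f 0 ≠ ⊤ := by
    intro htop
    rw [analyticOrderAt_eq_top] at htop
    have h3 := hf.eqOn_zero_of_preconnected_of_eventuallyEq_zero isPreconnected_univ
      (mem_univ 0) htop
    obtain ⟨z, hz⟩ := hne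
    exact hz (h3 (mem_univ z))
  have hz : analyticOrderAt f 0 ≠ 0 := by
    rw [(hf 0 (mem_univ _)).analyticOrderAt_ne_zero]
    exact h0
  have h3 : 1 ≤ MeromorphicOn.divisor f (closedBall 0 |R|) 0 := by
    rw [MeromorphicOn.AnalyticOnNhd.divisor_apply (hf.mono (subset_univ _)) hmem]
    obtain ⟨n, hn⟩ := ENat.ne_top_iff_exists.1 htop
    rw [← hn] at hz ⊢
    have : n ≠ 0 := by
      intro h
      rw [h] at hz
      exact hz rfl
    have e : ((n : ℕ∞).map (Nat.cast : ℕ → ℤ)).untop₀ = (n : ℤ) := rfl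
    rw [e]
    omega
  have h4 : (1:ℝ) ≤ MeromorphicOn.divisor f (closedBall 0 |R|) 0 := by exact_mod_cast h3
  have h5 : log R ≤ MeromorphicOn.divisor f (closedBall 0 |R|) 0 * log R :=
    le_mul_of_one_le_left (log_nonneg hR) h4
  linarith

end Pool.Agent.H218.WO
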