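import Mathlib

set_option autoImplicit false

open Polynomial

namespace Pool.Agent.H218.WO

/-- If `a, b` are coprime polynomials and `a` is not constant, some polynomial relation
`Q (a, b) = 0` has `Q (0, 0) = 1`. -/
theorem exists_relation (a b : ℂ[X]) (hab : IsCoprime a b) (ha : 0 < a.natDegree) :
    ∃ Q : MvPolynomial (Fin 2) ℂ, MvPolynomial.eval 0 Q = 1 ∧
      MvPolynomial.aeval ![a, b] Q = 0 := by
  classical
  set A : Subalgebra ℂ ℂ[X] := Algebra.adjoin ℂ {a, b} with hA
  have haA : a ∈ A := Algebra.subset_adjoin (by simp)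
  have hbA : b ∈ A := Algebra.subset_adjoin (by simp)
  have hlc : a.leadingCoeff ≠ 0 := by
    intro h
    rw [leadingCoeff_eq_zero] at h
    rw [h] at ha
    simp at ha
  -- `X` is integral over `A`
  have hint : IsIntegral A (X : ℂ[X]) := by
    set a₁ : ℂ[X] := C a.leadingCoeff⁻¹ * a with ha₁
    have hm : a₁.Monic := by
      rw [ha₁, mul_comm]
      exact monic_mul_leadingCoeff_inv (by intro h; rw [h] at hlc; simp at hlc)
    have hd : 0 < a₁.natDegree := by
      rw [ha₁, natDegree_C_mul (inv_ne_zero hlc)]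
      exact ha
    have ha₁A : a₁ ∈ A := by
      rw [ha₁, ← smul_eq_C_mul]
      exact A.smul_mem haA _
    refine ⟨a₁.map (algebraMap ℂ A) - C (⟨a₁, ha₁A⟩ : A), ?_, ?_⟩
    · refine (hm.map _).sub_of_left ?_
      refine degree_C_le.trans_lt ?_
      rw [hm.degree_map]
      exact natDegree_pos_iff_degree_pos.1 hd
    · rw [eval₂_sub, eval₂_C, eval₂_map]
      have h1 : (algebraMap A ℂ[X]).comp (algebraMap ℂ A) = algebraMap ℂ ℂ[X] := rfl
      rw [h1]
      have h2 : eval₂ (algebraMap ℂ ℂ[X]) X a₁ = a₁ := by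
        rw [← aeval_def, aeval_X_left_apply]
      rw [h2]
      exact sub_self _
  have hfg : (⊤ : Submodule A ℂ[X]).FG := by
    have h1 := hint.fg_adjoin_singleton
    have htop : Subalgebra.toSubmodule (Algebra.adjoin A {(X : ℂ[X])}) = ⊤ := ?_
    · rw [htop] at h1
      exact h1
    rw [eq_top_iff]
    rintro f -
    change f ∈ Algebra.adjoin A {(X : ℂ[X])}
    have h2 : f = aeval (X : ℂ[X]) f := (aeval_X_left_apply f).symm
    rw [h2]
    have h3 : (aeval (X : ℂ[X]) f) = ∑ i ∈ f.support, C (f.coeff i) * X ^ i := by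
      rw [aeval_X_left_apply]
      conv_lhs => rw [f.as_sum_support_C_mul_X_pow]
    rw [h3]
    refine Subalgebra.sum_mem _ fun i _ => Subalgebra.mul_mem _ ?_ ?_
    · have : C (f.coeff i) = algebraMap A ℂ[X] (algebraMap ℂ A (f.coeff i)) := rfl
      rw [this]
      exact Subalgebra.algebraMap_mem _ _
    · exact Subalgebra.pow_mem _ (Algebra.subset_adjoin (by simp)) _
  set I : Ideal A := Ideal.span {⟨a, haA⟩, ⟨b, hbA⟩} with hI
  have hle : (⊤ : Submodule A ℂ[X]) ≤ I • ⊤ := by
    obtain ⟨u, v, huv⟩ := hab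
    rintro f -
    have h1 : f = (⟨a, haA⟩ : A) • (f * u) + (⟨b, hbA⟩ : A) • (f * v) := by
      change f = a * (f * u) + b * (f * v)
      linear_combination -f * huv
    rw [h1]
    exact Submodule.add_mem _
      (Submodule.smul_mem_smul (Ideal.subset_span (by simp)) Submodule.mem_top)
      (Submodule.smul_mem_smul (Ideal.subset_span (by simp)) Submodule.mem_top)
  obtain ⟨r, hr1, hr2⟩ := Submodule.exists_sub_one_mem_and_smul_eq_zero_of_fg_of_le_smul I ⊤ hfg hle
  have hr0 : r = 0 := by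
    have h := hr2 1 Submodule.mem_top
    apply Subtype.ext
    change (r : ℂ[X]) * 1 = 0 at h
    simpa using h
  rw [hr0, zero_sub, hI, Ideal.mem_span_pair] at hr1
  obtain ⟨x, y, hxy⟩ := hr1
  have hmem : ∀ z : A, ∃ P : MvPolynomial (Fin 2) ℂ, MvPolynomial.aeval ![a, b] P = (z : ℂ[X]) := by
    intro z
    have hset : ({a, b} : Set ℂ[X]) = Set.range ![a, b] := by
      simp [Matrix.range_cons, Set.pair_comm]
    have hz : (z : ℂ[X]) ∈ (MvPolynomial.aeval (R := ℂ) ![a, b]).range := by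
      rw [← Algebra.adjoin_range_eq_range_aeval, ← hset]
      exact z.2
    exact hz
  obtain ⟨P, hP⟩ := hmem x
  obtain ⟨R, hR⟩ := hmem y
  refine ⟨1 + P * MvPolynomial.X 0 + R * MvPolynomial.X 1, by simp, ?_⟩
  have hxy' := congrArg (fun z : A => (z : ℂ[X])) hxy
  simp only [Subalgebra.coe_add, Subalgebra.coe_mul, NegMemClass.coe_neg, OneMemClass.coe_one] at hxy'
  simp only [map_add, map_one, map_mul, MvPolynomial.aeval_X, hP, hR, Matrix.cons_val_zero,
    Matrix.cons_val_one]
  linear_combination hxy'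

/-- The growth function. -/
noncomputable def L (z : Fin 2 → ℂ) : ℝ := 1 + Real.log (1 + ‖z‖)

theorem one_le_L (z : Fin 2 → ℂ) : 1 ≤ L z := by
  unfold L
  have := Real.log_nonneg (show (1:ℝ) ≤ 1 + ‖z‖ by linarith [norm_nonneg z])
  linarith

theorem continuous_L : Continuous L := by
  unfold L
  refine continuous_const.add (Continuous.log (by fun_prop) ?_)
  intro z
  have := norm_nonneg z
  positivity

/-- Polynomials have polynomial growth. -/
theorem exists_growth (Q : MvPolynomial (Fin 2) ℂ) :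
    ∃ C : ℝ, 1 ≤ C ∧ ∀ z : Fin 2 → ℂ, ‖MvPolynomial.eval z Q‖ ≤ Real.exp (C * L z) := by
  induction Q using MvPolynomial.induction_on with
  | C c =>
    refine ⟨1 + ‖c‖, by linarith [norm_nonneg c], fun z => ?_⟩
    rw [MvPolynomial.eval_C]
    have h1 := one_le_L z
    have h2 : ‖c‖ ≤ Real.exp (1 + ‖c‖) := by
      have := Real.add_one_le_exp (1 + ‖c‖)
      linarith
    refine h2.trans (Real.exp_le_exp.2 ?_)
    have : 0 ≤ 1 + ‖c‖ := by positivity
    nlinarith
  | add P R hP hR =>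
    obtain ⟨C₁, h1, hC₁⟩ := hP
    obtain ⟨C₂, h2, hC₂⟩ := hR
    refine ⟨max C₁ C₂ + 1, by linarith [le_max_left C₁ C₂], fun z => ?_⟩
    have hL := one_le_L z
    rw [map_add]
    have e1 : Real.exp (C₁ * L z) ≤ Real.exp (max C₁ C₂ * L z) :=
      Real.exp_le_exp.2 (mul_le_mul_of_nonneg_right (le_max_left _ _) (by linarith))
    have e2 : Real.exp (C₂ * L z) ≤ Real.exp (max C₁ C₂ * L z) :=
      Real.exp_le_exp.2 (mul_le_mul_of_nonneg_right (le_max_right _ _) (by linarith))
    have e3 : (2:ℝ) ≤ Real.exp (L z) := by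
      have := Real.add_one_le_exp (L z)
      linarith
    calc ‖MvPolynomial.eval z P + MvPolynomial.eval z R‖
        ≤ ‖MvPolynomial.eval z P‖ + ‖MvPolynomial.eval z R‖ := norm_add_le _ _
      _ ≤ 2 * Real.exp (max C₁ C₂ * L z) := by linarith [hC₁ z, hC₂ z]
      _ ≤ Real.exp (L z) * Real.exp (max C₁ C₂ * L z) := by
          exact mul_le_mul_of_nonneg_right e3 (Real.exp_pos _).le
      _ = Real.exp ((max C₁ C₂ + 1) * L z) := by rw [← Real.exp_add]; ring_nf
  | mul_X P i hP =>
    obtain ⟨C₁, h1, hC₁⟩ := hP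
    refine ⟨C₁ + 1, by linarith, fun z => ?_⟩
    have hL := one_le_L z
    rw [map_mul, MvPolynomial.eval_X, norm_mul]
    have e1 : ‖z i‖ ≤ Real.exp (L z) := by
      have h3 : ‖z i‖ ≤ ‖z‖ := norm_le_pi_norm z i
      have h4 : 0 < 1 + ‖z‖ := by positivity
      have h5 : Real.exp (L z) = Real.exp 1 * (1 + ‖z‖) := by
        unfold L
        rw [Real.exp_add, Real.exp_log h4]
      rw [h5]
      have h6 : (1:ℝ) ≤ Real.exp 1 := Real.one_le_exp (by norm_num)
      nlinarith [norm_nonneg z]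
    calc ‖MvPolynomial.eval z P‖ * ‖z i‖ ≤ Real.exp (C₁ * L z) * Real.exp (L z) :=
          mul_le_mul (hC₁ z) e1 (norm_nonneg _) (Real.exp_pos _).le
      _ = Real.exp ((C₁ + 1) * L z) := by rw [← Real.exp_add]; ring_nf

end Pool.Agent.H218.WO
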