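import Mathlib
import Pool.Agent.H218.WO.Poly
import Pool.Agent.H218.WO.Family
import Pool.Agent.H218.WO.Jensen

set_option autoImplicit false

open Metric Topology Filter Real Set

namespace Pool.Agent.H218.WO

theorem norm_sub_lt_of_lt_of_lt {x y w : ℂ} {a b : ℝ} (h1 : ‖x - y‖ < a) (h2 : ‖y - w‖ < b) :
    ‖x - w‖ < a + b := by
  have := norm_add_le (x - y) (y - w)
  rw [sub_add_sub_cancel] at this
  linarith

/-- The data used to build the domain. -/
structure Data where
  /-- the polynomial curves -/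
  g : ℕ → Polynomial ℂ × Polynomial ℂ
  /-- the equations of the curves -/
  Q : ℕ → MvPolynomial (Fin 2) ℂ
  /-- the growth constants -/
  C : ℕ → ℝ
  good : ∀ n, Good (g n)
  dense : ∀ h : Polynomial ℂ × Polynomial ℂ, Good h → ∀ (N : ℕ) (ε : ℝ), 0 < ε →
      ∃ n, ∀ z ∈ closedBall (0:ℂ) N, ‖(g n).1.eval z - h.1.eval z‖ < ε ∧
        ‖(g n).2.eval z - h.2.eval z‖ < ε
  Q0 : ∀ n, MvPolynomial.eval 0 (Q n) = 1
  Qg : ∀ n, MvPolynomial.aeval ![(g n).1, (g n).2] (Q n) = 0
  C1 : ∀ n, 1 ≤ C n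
  growth : ∀ n z, ‖MvPolynomial.eval z (Q n)‖ ≤ Real.exp (C n * L z)

theorem exists_data : Nonempty Data := by
  obtain ⟨g, hg, hd⟩ := exists_family
  choose Q hQ1 hQ2 using fun n => exists_relation (g n).1 (g n).2 (hg n).1 (hg n).2
  choose C hC1 hC2 using fun n => exists_growth (Q n)
  exact ⟨⟨g, Q, C, hg, hd, hQ1, hQ2, hC1, hC2⟩⟩

namespace Data

variable (D : Data)

/-- The weights. -/
noncomputable def wt (n : ℕ) : ℝ := 1 / (2 ^ (n + 1) * D.C n)

theorem wt_pos (n : ℕ) : 0 < D.wt n := by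
  have := D.C1 n
  unfold wt
  positivity

theorem wt_mul_C (n : ℕ) : D.wt n * D.C n = 1 / 2 ^ (n + 1) := by
  have h : D.C n ≠ 0 := by
    have := D.C1 n
    intro h
    rw [h] at this
    linarith
  unfold wt
  field_simp

/-- A small neighborhood of the `n`-th curve. -/
def N (n : ℕ) : Set (Fin 2 → ℂ) :=
  {z | ‖MvPolynomial.eval z (D.Q n)‖ < Real.exp (-3 * L z / D.wt n)}

theorem isOpen_N (n : ℕ) : IsOpen (D.N n) := by
  refine isOpen_lt ?_ ?_
  · exact (MvPolynomial.continuous_eval (D.Q n)).norm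
  · have := continuous_L
    fun_prop

/-- The union of the unit ball and of the neighborhoods of the curves. -/
def O : Set (Fin 2 → ℂ) := ball 0 1 ∪ ⋃ n, D.N n

theorem isOpen_O : IsOpen D.O := isOpen_ball.union (isOpen_iUnion D.isOpen_N)

theorem ev_mem_N (n : ℕ) (t : ℂ) : ev (D.g n) t ∈ D.N n := by
  have h : MvPolynomial.eval (ev (D.g n) t) (D.Q n) = 0 := by
    have h1 := congrArg (Polynomial.eval t) (D.Qg n)
    rw [Polynomial.eval_zero] at h1
    rw [← h1]
    have h2 : ev (D.g n) t = fun i => Polynomial.eval t (![(D.g n).1, (D.g n).2] i) := by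
      funext i
      fin_cases i <;> rfl
    rw [h2]
    have h3 := MvPolynomial.eval₂_comp_left (Polynomial.evalRingHom t) (algebraMap ℂ (Polynomial ℂ))
      ![(D.g n).1, (D.g n).2] (D.Q n)
    rw [MvPolynomial.aeval_def]
    rw [Polynomial.coe_evalRingHom] at h3
    rw [h3, ← MvPolynomial.eval₂_id]
    congr 1
    ext x
    simp
  change ‖MvPolynomial.eval (ev (D.g n) t) (D.Q n)‖ < _
  rw [h, norm_zero]
  exact Real.exp_pos _

/-- The upper bound off the zero sets. -/
theorem weighted_le (z : Fin 2 → ℂ) (i : ℕ) :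
    D.wt i * log ‖MvPolynomial.eval z (D.Q i)‖ ≤ 1 / 2 ^ (i + 1) * L z := by
  have hL := one_le_L z
  rcases eq_or_ne (MvPolynomial.eval z (D.Q i)) 0 with h | h
  · rw [h, norm_zero, log_zero, mul_zero]
    positivity
  · have h1 : log ‖MvPolynomial.eval z (D.Q i)‖ ≤ D.C i * L z := by
      rw [← Real.log_exp (D.C i * L z)]
      exact Real.log_le_log (norm_pos_iff.2 h) (D.growth i z)
    calc D.wt i * log ‖MvPolynomial.eval z (D.Q i)‖ ≤ D.wt i * (D.C i * L z) :=
          mul_le_mul_of_nonneg_left h1 (D.wt_pos i).le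
      _ = 1 / 2 ^ (i + 1) * L z := by rw [← mul_assoc, D.wt_mul_C]

theorem geom_le (s : Finset ℕ) : ∑ i ∈ s, (1 : ℝ) / 2 ^ (i + 1) ≤ 1 := by
  have h1 : Summable (fun i : ℕ => (1:ℝ) / 2 ^ (i + 1)) := by
    have := summable_geometric_two' (1:ℝ)
    refine this.congr fun i => ?_
    rw [pow_succ]
    field_simp
  have h2 : ∑' i : ℕ, (1:ℝ) / 2 ^ (i + 1) = 1 := by
    have := tsum_geometric_two' (1:ℝ)
    refine Eq.trans (tsum_congr fun i => ?_) this
    rw [pow_succ]
    field_simp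
  exact (h1.sum_le_tsum s (fun i _ => by positivity)).trans_eq h2

theorem sum_le (z : Fin 2 → ℂ) (s : Finset ℕ) :
    ∑ i ∈ s, D.wt i * log ‖MvPolynomial.eval z (D.Q i)‖ ≤ L z := by
  have hL := one_le_L z
  calc ∑ i ∈ s, D.wt i * log ‖MvPolynomial.eval z (D.Q i)‖
      ≤ ∑ i ∈ s, 1 / 2 ^ (i + 1) * L z := Finset.sum_le_sum fun i _ => D.weighted_le z i
    _ = (∑ i ∈ s, (1:ℝ) / 2 ^ (i + 1)) * L z := by rw [Finset.sum_mul]
    _ ≤ 1 * L z := mul_le_mul_of_nonneg_right (geom_le s) (by linarith)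
    _ = L z := one_mul _

/-- The main pointwise estimate. -/
theorem pointwise (z : Fin 2 → ℂ) (s : Finset ℕ)
    (hz : z ∈ ball (0 : Fin 2 → ℂ) 1 ∨ ∃ k ∈ s, z ∈ D.N k)
    (hne : ∀ k ∈ s, MvPolynomial.eval z (D.Q k) ≠ 0) :
    ∑ i ∈ s, D.wt i * log ‖MvPolynomial.eval z (D.Q i)‖ ≤ 2 * (1 + log 2) - L z := by
  have hL := one_le_L z
  have hlog2 : 0 < log 2 := Real.log_pos (by norm_num)
  rcases hz with hz | ⟨k, hk, hz⟩
  · have h1 := D.sum_le z s
    have h2 : L z ≤ 1 + log 2 := by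
      unfold L
      rw [mem_ball_zero_iff] at hz
      have : log (1 + ‖z‖) ≤ log 2 := Real.log_le_log (by positivity) (by linarith)
      linarith
    linarith
  · rw [← Finset.add_sum_erase s _ hk]
    have h1 := D.sum_le z (s.erase k)
    have h2 : D.wt k * log ‖MvPolynomial.eval z (D.Q k)‖ ≤ -3 * L z := by
      have h3 : log ‖MvPolynomial.eval z (D.Q k)‖ ≤ -3 * L z / D.wt k := by
        rw [← Real.log_exp (-3 * L z / D.wt k)]
        exact Real.log_le_log (norm_pos_iff.2 (hne k hk)) (le_of_lt hz)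
      calc D.wt k * log ‖MvPolynomial.eval z (D.Q k)‖ ≤ D.wt k * (-3 * L z / D.wt k) :=
            mul_le_mul_of_nonneg_left h3 (D.wt_pos k).le
        _ = -3 * L z := by
            have := (D.wt_pos k).ne'
            field_simp
    linarith

theorem analytic_comp (F : ℂ → Fin 2 → ℂ) (hF : ∀ i, AnalyticOnNhd ℂ (fun z => F z i) univ)
    (Q : MvPolynomial (Fin 2) ℂ) : AnalyticOnNhd ℂ (fun z => MvPolynomial.eval (F z) Q) univ :=
  AnalyticOnNhd.aeval_mvPolynomial (f := F) hF Q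

/-- The circle averages of the growth function along an entire curve through the origin. -/
theorem circle_bound (F : ℂ → Fin 2 → ℂ) (hF : ∀ i, AnalyticOnNhd ℂ (fun z => F z i) univ)
    (hF0 : F 0 = 0) (hFO : ∀ z, F z ∈ D.O) (R : ℝ) (hR : 1 ≤ R) :
    circleAverage (fun z => L (F z)) 0 R ≤ 2 * (1 + log 2) := by
  classical
  have hFc : Continuous F := continuous_pi fun i => continuousOn_univ.1 (hF i).continuousOn
  have hQa : ∀ i, AnalyticOnNhd ℂ (fun z => MvPolynomial.eval (F z) (D.Q i)) univ :=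
    fun i => analytic_comp F hF (D.Q i)
  have hLc : Continuous (fun z => L (F z)) := continuous_L.comp hFc
  -- finitely many neighborhoods suffice
  have hcomp : IsCompact (F '' sphere (0:ℂ) |R|) := (isCompact_sphere _ _).image hFc
  obtain ⟨s, hs⟩ : ∃ s : Finset ℕ, ∀ z ∈ sphere (0:ℂ) |R|,
      F z ∈ ball (0 : Fin 2 → ℂ) 1 ∨ ∃ k ∈ s, F z ∈ D.N k := by
    have hcov : F '' sphere (0:ℂ) |R| ⊆ ⋃ n : ℕ, (ball (0 : Fin 2 → ℂ) 1 ∪ D.N n) := by
      rintro _ ⟨z, -, rfl⟩
      rcases hFO z with h | h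
      · exact mem_iUnion.2 ⟨0, Or.inl h⟩
      · obtain ⟨n, hn⟩ := mem_iUnion.1 h
        exact mem_iUnion.2 ⟨n, Or.inr hn⟩
    obtain ⟨t, ht⟩ := hcomp.elim_finite_subcover _ (fun n => isOpen_ball.union (D.isOpen_N n)) hcov
    refine ⟨t, fun z hz => ?_⟩
    have h1 := ht ⟨z, hz, rfl⟩
    simp only [mem_iUnion] at h1
    obtain ⟨k, hk, h2⟩ := h1
    rcases h2 with h2 | h2
    · exact Or.inl h2
    · exact Or.inr ⟨k, hk, h2⟩
  have hR0 : R ≠ 0 := by linarith
  set S : ℂ → ℝ := fun z => ∑ i ∈ s, D.wt i * log ‖MvPolynomial.eval (F z) (D.Q i)‖ with hS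
  have hint : ∀ i, CircleIntegrable (fun z => log ‖MvPolynomial.eval (F z) (D.Q i)‖) 0 R := by
    intro i
    exact ((hQa i).mono (subset_univ _)).meromorphicOn.circleIntegrable_log_norm
  have hint' : ∀ i, CircleIntegrable
      (fun z => D.wt i * log ‖MvPolynomial.eval (F z) (D.Q i)‖) 0 R := by
    intro i
    exact IntervalIntegrable.const_mul (hint i) (D.wt i)
  have hSint : CircleIntegrable S 0 R := CircleIntegrable.fun_sum s fun i _ => hint' i
  have hSavg : 0 ≤ circleAverage S 0 R := by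
    rw [hS, circleAverage_fun_sum fun i _ => hint' i]
    refine Finset.sum_nonneg fun i _ => ?_
    have e : circleAverage (fun z => D.wt i * log ‖MvPolynomial.eval (F z) (D.Q i)‖) 0 R
        = D.wt i * circleAverage (fun z => log ‖MvPolynomial.eval (F z) (D.Q i)‖) 0 R :=
      circleAverage_fun_smul (a := D.wt i)
    rw [e]
    refine mul_nonneg (D.wt_pos i).le ?_
    have h1 := jensen_one (fun z => MvPolynomial.eval (F z) (D.Q i)) (hQa i)
      (by rw [hF0, D.Q0]; exact one_ne_zero) R hR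
    rw [hF0, D.Q0, norm_one, log_one] at h1
    exact h1
  set bad : Set ℂ := {z | ∃ k ∈ s, MvPolynomial.eval (F z) (D.Q k) = 0} with hbad
  set T : ℂ → ℝ := fun z => if z ∈ bad then 2 * (1 + log 2) - L (F z) else S z with hT
  have hcod : S =ᶠ[codiscreteWithin (sphere (0:ℂ) |R|)] T := by
    have h1 : ∀ k ∈ s, {z | MvPolynomial.eval (F z) (D.Q k) ≠ 0}
        ∈ codiscreteWithin (sphere (0:ℂ) |R|) := by
      intro k _
      have h2 := (hQa k).preimage_zero_mem_codiscrete (x := 0)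
        (by rw [hF0, D.Q0]; exact one_ne_zero)
      exact codiscreteWithin_mono (subset_univ _) h2
    have h3 := (Filter.biInter_finset_mem s).2 h1
    filter_upwards [h3] with z hz
    have hzb : z ∉ bad := by
      rintro ⟨k, hk, h0⟩
      simp only [mem_iInter] at hz
      exact hz k hk h0
    simp only [hT, if_neg hzb]
  have hTint : CircleIntegrable T 0 R := hSint.congr_codiscreteWithin hcod
  have hTavg : circleAverage S 0 R = circleAverage T 0 R :=
    circleAverage_congr_codiscreteWithin hcod hR0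
  have hLint : CircleIntegrable (fun z => L (F z)) 0 R := hLc.continuousOn.circleIntegrable'
  have hle : circleAverage T 0 R ≤ circleAverage (fun z => 2 * (1 + log 2) - L (F z)) 0 R := by
    refine circleAverage_mono hTint ?_ ?_
    · exact (continuous_const.sub hLc).continuousOn.circleIntegrable'
    · intro z hz
      simp only [hT]
      split_ifs with h
      · exact le_rfl
      · refine D.pointwise (F z) s (hs z hz) ?_
        intro k hk h0
        exact h ⟨k, hk, h0⟩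
  have heq : circleAverage (fun z => 2 * (1 + log 2) - L (F z)) 0 R
      = 2 * (1 + log 2) - circleAverage (fun z => L (F z)) 0 R := by
    rw [circleAverage_fun_sub (circleIntegrable_const _ _ _) hLint, circleAverage_const]
  linarith

/-- Entire curves in the open set through the origin are constant. -/
theorem liouville (F : ℂ → Fin 2 → ℂ) (hF : ∀ i, AnalyticOnNhd ℂ (fun z => F z i) univ)
    (hF0 : F 0 = 0) (hFO : ∀ z, F z ∈ D.O) (z : ℂ) : F z = 0 := by
  by_contra hne
  obtain ⟨i, hi⟩ : ∃ i, F z i ≠ 0 := by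
    by_contra hcon
    push Not at hcon
    exact hne (funext hcon)
  have hFc : Continuous F := continuous_pi fun i => continuousOn_univ.1 (hF i).continuousOn
  have hLc : Continuous (fun z => L (F z)) := continuous_L.comp hFc
  obtain ⟨c, hc⟩ := jensen_two (fun z => F z i) (hF i) (by rw [hF0]; rfl) ⟨z, hi⟩
  have key : ∀ R : ℝ, 1 ≤ R → log R + c ≤ 2 * (1 + log 2) := by
    intro R hR
    refine (hc R hR).trans (le_trans ?_ (D.circle_bound F hF hF0 hFO R hR))
    refine circleAverage_mono ?_ hLc.continuousOn.circleIntegrable' ?_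
    · exact ((hF i).mono (subset_univ _)).meromorphicOn.circleIntegrable_log_norm
    · intro w _
      rcases eq_or_ne (F w i) 0 with h | h
      · simp only [h, norm_zero, log_zero]
        linarith [one_le_L (F w)]
      · have h1 : ‖F w i‖ ≤ 1 + ‖F w‖ := by
          have := norm_le_pi_norm (F w) i
          linarith
        have h2 := Real.log_le_log (norm_pos_iff.2 h) h1
        unfold L
        linarith
  have h1 := key (Real.exp (|c| + 2 * (1 + log 2) + 1)) (by
    apply Real.one_le_exp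
    have : 0 < log 2 := Real.log_pos (by norm_num)
    positivity)
  rw [Real.log_exp] at h1
  linarith [neg_abs_le c]

/-- The domain. -/
def dom : Set (Fin 2 → ℂ) := connectedComponentIn D.O 0

theorem zero_mem_O : (0 : Fin 2 → ℂ) ∈ D.O := Or.inl (mem_ball_self one_pos)

theorem isOpen_dom : IsOpen D.dom := D.isOpen_O.connectedComponentIn

theorem isConnected_dom : IsConnected D.dom :=
  isConnected_connectedComponentIn_iff.2 D.zero_mem_O

theorem dom_subset : D.dom ⊆ D.O := connectedComponentIn_subset _ _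

theorem subset_dom (S : Set (Fin 2 → ℂ)) (hS : IsPreconnected S) (hSO : S ⊆ D.O)
    (y : Fin 2 → ℂ) (hyS : y ∈ S) (hy : y ∈ D.dom) : S ⊆ D.dom := by
  have h1 : D.dom = connectedComponentIn D.O y := connectedComponentIn_eq hy
  rw [h1]
  exact hS.subset_connectedComponentIn hyS hSO

theorem zero_mem_dom : (0 : Fin 2 → ℂ) ∈ D.dom := mem_connectedComponentIn D.zero_mem_O

theorem ball_subset_dom : ball (0 : Fin 2 → ℂ) 1 ⊆ D.dom :=
  D.subset_dom _ (convex_ball _ _).isPreconnected (fun _ hz => Or.inl hz) 0 (mem_ball_self one_pos)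
    D.zero_mem_dom

theorem range_subset_O (n : ℕ) : range (ev (D.g n)) ⊆ D.O := by
  rintro _ ⟨t, rfl⟩
  exact Or.inr (mem_iUnion.2 ⟨n, D.ev_mem_N n t⟩)

theorem norm_ev_sub_lt (g : Polynomial ℂ × Polynomial ℂ) (t : ℂ) (v : Fin 2 → ℂ) (δ : ℝ)
    (h0 : ‖g.1.eval t - v 0‖ < δ) (h1 : ‖g.2.eval t - v 1‖ < δ) : ‖ev g t - v‖ < δ := by
  have hδ : 0 < δ := (norm_nonneg _).trans_lt h0
  rw [pi_norm_lt_iff hδ]
  intro i
  fin_cases i
  · exact h0
  · exact h1

theorem curve_mem_dom (n : ℕ) (t : ℂ) : ev (D.g n) t ∈ D.dom := by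
  set p : Fin 2 → ℂ := ev (D.g n) 0 with hp
  have hpO : p ∈ D.O := D.range_subset_O n ⟨0, rfl⟩
  obtain ⟨δ, hδ, hball⟩ := Metric.isOpen_iff.1 D.isOpen_O p hpO
  set ε : ℝ := min δ 1 / 2 with hε
  have hε0 : 0 < ε := by positivity
  have hεδ : ε + ε ≤ δ := by
    rw [hε]
    linarith [min_le_left δ 1]
  have hε1 : ε + ε ≤ 1 := by
    rw [hε]
    linarith [min_le_right δ 1]
  obtain ⟨h, hgood, hclose⟩ := exists_good_near (Polynomial.C (p 0) * (1 - Polynomial.X))
    (Polynomial.C (p 1) * (1 - Polynomial.X)) (closedBall 0 ((1:ℕ):ℝ)) (isCompact_closedBall _ _)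
    ε hε0
  obtain ⟨m, hm⟩ := D.dense h hgood 1 ε hε0
  have m0 : (0:ℂ) ∈ closedBall (0:ℂ) ((1:ℕ):ℝ) := by simp
  have m1 : (1:ℂ) ∈ closedBall (0:ℂ) ((1:ℕ):ℝ) := by simp
  have e0 : ‖ev (D.g m) 0 - p‖ < δ := by
    refine lt_of_lt_of_le (norm_ev_sub_lt (D.g m) 0 p (ε + ε) ?_ ?_) hεδ
    · have h1 := (hm 0 m0).1
      have h2 := (hclose 0 m0).1
      simp only [Polynomial.eval_mul, Polynomial.eval_C, Polynomial.eval_sub, Polynomial.eval_one,
        Polynomial.eval_X, sub_zero, mul_one] at h2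
      exact norm_sub_lt_of_lt_of_lt h1 h2
    · have h1 := (hm 0 m0).2
      have h2 := (hclose 0 m0).2
      simp only [Polynomial.eval_mul, Polynomial.eval_C, Polynomial.eval_sub, Polynomial.eval_one,
        Polynomial.eval_X, sub_zero, mul_one] at h2
      exact norm_sub_lt_of_lt_of_lt h1 h2
  have e1 : ‖ev (D.g m) 1 - 0‖ < 1 := by
    refine lt_of_lt_of_le (norm_ev_sub_lt (D.g m) 1 0 (ε + ε) ?_ ?_) hε1
    · have h1 := (hm 1 m1).1
      have h2 := (hclose 1 m1).1
      simp only [Polynomial.eval_mul, Polynomial.eval_C, Polynomial.eval_sub, Polynomial.eval_one,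
        Polynomial.eval_X, sub_self, mul_zero] at h2
      exact norm_sub_lt_of_lt_of_lt h1 h2
    · have h1 := (hm 1 m1).2
      have h2 := (hclose 1 m1).2
      simp only [Polynomial.eval_mul, Polynomial.eval_C, Polynomial.eval_sub, Polynomial.eval_one,
        Polynomial.eval_X, sub_self, mul_zero] at h2
      exact norm_sub_lt_of_lt_of_lt h1 h2
  have hpre : ∀ k, IsPreconnected (range (ev (D.g k))) := fun k =>
    isPreconnected_range (continuous_ev _)
  have s1 : range (ev (D.g m)) ⊆ D.dom := by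
    refine D.subset_dom _ (hpre m) (D.range_subset_O m) (ev (D.g m) 1) ⟨1, rfl⟩ ?_
    apply D.ball_subset_dom
    rw [mem_ball_iff_norm]
    exact e1
  have s2 : ball p δ ⊆ D.dom := by
    refine D.subset_dom _ (convex_ball _ _).isPreconnected hball (ev (D.g m) 0) ?_ (s1 ⟨0, rfl⟩)
    rw [mem_ball_iff_norm]
    exact e0
  have s3 : range (ev (D.g n)) ⊆ D.dom :=
    D.subset_dom _ (hpre n) (D.range_subset_O n) p ⟨0, rfl⟩ (s2 (mem_ball_self hδ))
  exact s3 ⟨t, rfl⟩

/-- Approximation on two discs by the curves of the family. -/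
theorem exists_approx (c₁ c₂ : ℂ) (r₁ r₂ : ℝ) (h₁ : 0 ≤ r₁) (h₂ : 0 ≤ r₂)
    (hd : Disjoint (closedBall c₁ r₁) (closedBall c₂ r₂)) (F : ℂ → Fin 2 → ℂ) (U : Set ℂ)
    (hU : IsOpen U) (hsub : closedBall c₁ r₁ ∪ closedBall c₂ r₂ ⊆ U)
    (hF : ∀ i, DifferentiableOn ℂ (fun z => F z i) U) (δ : ℝ) (hδ : 0 < δ) :
    ∃ n, ∀ z ∈ closedBall c₁ r₁ ∪ closedBall c₂ r₂, ‖ev (D.g n) z - F z‖ < δ := by
  obtain ⟨a, ha⟩ := approx_two c₁ c₂ r₁ r₂ h₁ h₂ hd (fun z => F z 0) U hU hsub (hF 0) (δ / 3)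
    (by positivity)
  obtain ⟨b, hb⟩ := approx_two c₁ c₂ r₁ r₂ h₁ h₂ hd (fun z => F z 1) U hU hsub (hF 1) (δ / 3)
    (by positivity)
  obtain ⟨N, hN⟩ : ∃ N : ℕ, closedBall c₁ r₁ ∪ closedBall c₂ r₂ ⊆ closedBall (0:ℂ) N := by
    have hb : Bornology.IsBounded (closedBall c₁ r₁ ∪ closedBall c₂ r₂) :=
      isBounded_closedBall.union isBounded_closedBall
    obtain ⟨R, hR⟩ := hb.subset_closedBall 0
    obtain ⟨N, hN⟩ := exists_nat_ge R
    exact ⟨N, hR.trans (closedBall_subset_closedBall hN)⟩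
  obtain ⟨h, hgood, hclose⟩ := exists_good_near a b (closedBall 0 (N:ℝ))
    (isCompact_closedBall _ _) (δ / 3) (by positivity)
  obtain ⟨m, hm⟩ := D.dense h hgood N (δ / 3) (by positivity)
  refine ⟨m, fun z hz => ?_⟩
  have hzN := hN hz
  refine norm_ev_sub_lt (D.g m) z (F z) δ ?_ ?_
  · have h1 := (hm z hzN).1
    have h2 := (hclose z hzN).1
    have h3 := ha z hz
    have h4 := norm_sub_lt_of_lt_of_lt (norm_sub_lt_of_lt_of_lt h1 h2) h3
    linarith
  · have h1 := (hm z hzN).2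
    have h2 := (hclose z hzN).2
    have h3 := hb z hz
    have h4 := norm_sub_lt_of_lt_of_lt (norm_sub_lt_of_lt_of_lt h1 h2) h3
    linarith

end Data

end Pool.Agent.H218.WO
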